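import Pool.Agent.H69.LQ.Lib
import Pool.Agent.H69.LQ.Targets1
import Pool.Agent.H3.LK.SCL
import Pool.Agent.H19.LK.NE

/-!
# MP_8f7db2_an, row LQ1: the theorem, from the theorem for centred sets

Adapted from `Pool/Agent/H94/LQ/LQ.lean`.
-/

set_option autoImplicit false

open MeasureTheory Metric Set
open scoped ENNReal
open Pool.Agent.H85.LK (E adm lam Ann)
open Pool.Agent.H69.LQ

namespace Pool.Agent.H10.LQ1

/-- volumes of preimages under similarities -/
theorem vol_pre (N : ℕ) (r : ℝ) (hr : 0 < r) (o : E N) (A : Set (E N)) :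
    volume ((fun x : E N => r • (o + x)) ⁻¹' A) = ENNReal.ofReal ((r ^ N)⁻¹) * volume A := by
  have h1 : (fun x : E N => r • (o + x)) ⁻¹' A =
      (fun x => o + x) ⁻¹' ((fun x => r • x) ⁻¹' A) := rfl
  rw [h1, measure_preimage_add, Measure.addHaar_preimage_smul _ hr.ne']
  rw [finrank_euclideanSpace_fin, abs_of_pos (by positivity)]

theorem vol_pre_real (N : ℕ) (r : ℝ) (hr : 0 < r) (o : E N) (A : Set (E N)) :
    volume.real ((fun x : E N => r • (o + x)) ⁻¹' A) = (r ^ N)⁻¹ * volume.real A := by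
  unfold Measure.real
  rw [vol_pre N r hr o A, ENNReal.toReal_mul, ENNReal.toReal_ofReal (by positivity)]

theorem pf_LQ1 (hFZ : T_FZ) (hCE1 : T_CE1) (hBT : T_BT) (hCR1 : T_CR1) (hTR : T_TR)
    (hUB : T_UB) : T_LQ1 := by
  intro N ε hN hε
  obtain ⟨L, hL⟩ := hFZ N hN
  obtain ⟨κ1, c1, hκ1, hc1, hcr⟩ := hCR1 N L ε hN hL hε
  obtain ⟨ε1, hε1, hbt⟩ := hBT N (κ1 / 2) hN (by positivity)
  obtain ⟨κ2, hκ2, hce⟩ := hCE1 N ε1 hN hε1
  have hvb : 0 < volume.real (ball (0 : E N) 1) := by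
    unfold Measure.real
    exact ENNReal.toReal_pos (measure_ball_pos _ _ one_pos).ne' measure_ball_lt_top.ne
  obtain ⟨vb, hvbdef⟩ : ∃ vb, vb = volume.real (ball (0 : E N) 1) := ⟨_, rfl⟩
  rw [← hvbdef] at hvb
  obtain ⟨cm, hcm⟩ : ∃ cm, cm = min (c1 * vb ^ 2) (c1 * vb) := ⟨_, rfl⟩
  have hcm0 : 0 < cm := by
    rw [hcm]
    exact lt_min (by positivity) (by positivity)
  have hL1 : 0 < |L| + 1 := by positivity
  refine ⟨min κ2 (κ1 / 2) / vb, cm / (|L| + 1), div_pos (lt_min hκ2 (by positivity)) hvb,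
    by positivity, ?_⟩
  intro r z Ω hr hΩ hvol hball
  -- rescaled set
  obtain ⟨Ω1, hΩ1⟩ : ∃ Ω1 : Set (E N), Ω1 = (fun x : E N => r • x) ⁻¹' Ω := ⟨_, rfl⟩
  have hΩ1o : IsOpen Ω1 := by
    rw [hΩ1]
    exact hΩ.preimage (continuous_const_smul r)
  have hpre1 : (fun x : E N => r • x) ⁻¹' ball (0 : E N) r = ball (0 : E N) 1 := by
    ext x
    simp only [mem_preimage, mem_ball_zero_iff, norm_smul, Real.norm_eq_abs, abs_of_pos hr]
    constructor
    · intro h
      by_contra hx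
      push Not at hx
      nlinarith
    · intro h
      nlinarith
  have hΩ1v : volume Ω1 = volume (ball (0 : E N) 1) := by
    rw [← hpre1, hΩ1, Measure.addHaar_preimage_smul _ hr.ne',
      Measure.addHaar_preimage_smul _ hr.ne', hvol]
  have hΩ1f : volume Ω1 ≠ ⊤ := by rw [hΩ1v]; exact measure_ball_lt_top.ne
  have hrN : 0 < (r ^ N)⁻¹ := by positivity
  have hV0 : vb = (r ^ N)⁻¹ * volume.real (ball (0 : E N) r) := by
    have h1 := vol_pre_real N r hr 0 (ball (0 : E N) r)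
    have h2 : (fun x : E N => r • ((0 : E N) + x)) ⁻¹' ball (0 : E N) r = ball (0 : E N) 1 := by
      rw [← hpre1]
      ext x
      simp
    rw [h2] at h1
    rw [hvbdef, h1]
  have hpz : (fun x : E N => r • x) ⁻¹' ball z r = ball (r⁻¹ • z) 1 := by
    ext x
    rw [mem_preimage, mem_ball, dist_eq_norm, mem_ball, dist_eq_norm]
    have h1 : r • x - z = r • (x - r⁻¹ • z) := by
      rw [smul_sub, smul_smul, mul_inv_cancel₀ hr.ne', one_smul]
    rw [h1, norm_smul, Real.norm_eq_abs, abs_of_pos hr]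
    constructor
    · intro h
      by_contra hx
      push Not at hx
      nlinarith
    · intro h
      nlinarith
  have hΩ1b : volume.real (symmDiff Ω1 (ball (r⁻¹ • z) 1)) ≤ min κ2 (κ1 / 2) := by
    have h1 : symmDiff Ω1 (ball (r⁻¹ • z) 1) =
        (fun x : E N => r • ((0 : E N) + x)) ⁻¹' (symmDiff Ω (ball z r)) := by
      rw [← hpz, hΩ1]
      ext x
      simp [mem_symmDiff]
    rw [h1, vol_pre_real N r hr 0]
    have h2 : min κ2 (κ1 / 2) = (r ^ N)⁻¹ * (min κ2 (κ1 / 2) / vb *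
        volume.real (ball (0 : E N) r)) := by
      calc min κ2 (κ1 / 2) = min κ2 (κ1 / 2) / vb * vb := by field_simp
        _ = min κ2 (κ1 / 2) / vb * ((r ^ N)⁻¹ * volume.real (ball (0 : E N) r)) := by
            rw [← hV0]
        _ = _ := by ring
    rw [h2]
    exact mul_le_mul_of_nonneg_left hball hrN.le
  obtain ⟨o1, ho1, hcen⟩ := hce Ω1 (r⁻¹ • z) hΩ1o hΩ1v (hΩ1b.trans (min_le_left _ _))
  -- centred set
  obtain ⟨Ω2, hΩ2⟩ : ∃ Ω2 : Set (E N), Ω2 = (fun x : E N => o1 + x) ⁻¹' Ω1 := ⟨_, rfl⟩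
  have hΩ2o : IsOpen Ω2 := by
    rw [hΩ2]
    exact hΩ1o.preimage (continuous_const.add continuous_id)
  have hΩ2v : volume Ω2 = volume (ball (0 : E N) 1) := by
    rw [hΩ2, measure_preimage_add, hΩ1v]
  have hΩ2b : volume.real (symmDiff Ω2 (ball (0 : E N) 1)) ≤ κ1 := by
    have h1 : symmDiff Ω2 (ball (0 : E N) 1) =
        (fun x : E N => o1 + x) ⁻¹' (symmDiff Ω1 (ball o1 1)) := by
      have h2 : ball (0 : E N) 1 = (fun x : E N => o1 + x) ⁻¹' ball o1 1 := by
        ext x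
        rw [mem_preimage, mem_ball, mem_ball, dist_eq_norm, dist_eq_norm, add_sub_cancel_left,
          sub_zero]
      rw [h2, hΩ2]
      rfl
    have h3 : volume.real (symmDiff Ω2 (ball (0 : E N) 1)) =
        volume.real (symmDiff Ω1 (ball o1 1)) := by
      unfold Measure.real
      rw [h1, measure_preimage_add]
    have h4 : symmDiff Ω1 (ball o1 1) ⊆ symmDiff Ω1 (ball (r⁻¹ • z) 1) ∪
        symmDiff (ball (r⁻¹ • z) 1) (ball o1 1) := symmDiff_triangle _ _ _
    have hf1 : volume (symmDiff Ω1 (ball (r⁻¹ • z) 1)) ≠ ⊤ :=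
      ((measure_mono symmDiff_subset_union).trans_lt (measure_union_lt_top hΩ1f.lt_top
        measure_ball_lt_top)).ne
    have hf2 : volume (symmDiff (ball (r⁻¹ • z) 1) (ball o1 1)) ≠ ⊤ :=
      ((measure_mono symmDiff_subset_union).trans_lt (measure_union_lt_top measure_ball_lt_top
        measure_ball_lt_top)).ne
    have h5 := hbt o1 (r⁻¹ • z) ho1
    have h6 : volume.real (symmDiff Ω1 (ball o1 1)) ≤
        volume.real (symmDiff Ω1 (ball (r⁻¹ • z) 1)) +
          volume.real (symmDiff (ball (r⁻¹ • z) 1) (ball o1 1)) :=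
      (measureReal_mono h4 (measure_union_lt_top hf1.lt_top hf2.lt_top).ne).trans
        (measureReal_union_le _ _)
    have h7 := hΩ1b.trans (min_le_right _ _)
    linarith
  have hΩ2c : ∀ i, ∫ x in Ω2, x i * Real.exp (-‖x‖ ^ 2) = 0 := by
    intro i
    rw [← hcen i, hΩ2]
    have h1 := (measurePreserving_add_left (volume : Measure (E N)) o1).setIntegral_preimage_emb
      (measurableEmbedding_addLeft o1) (fun y => (y i - o1 i) * Real.exp (-‖y - o1‖ ^ 2)) Ω1
    rw [← h1]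
    refine setIntegral_congr_fun (hΩ1o.preimage (continuous_const.add continuous_id)).measurableSet
      fun x _ => ?_
    simp
  have hadm : adm N (N + 1) Ω2 = adm N (N + 1) Ω1 := by
    rw [hΩ2]
    exact hTR N (N + 1) o1 Ω1
  obtain ⟨s, hs⟩ : ∃ s, s = volume.real (symmDiff Ω2 (ball (0 : E N) 1)) := ⟨_, rfl⟩
  obtain ⟨t, ht⟩ : ∃ t, t = volume.real (symmDiff Ω2 (ball (0 : E N) 1) ∩
      {x | ε ≤ |‖x‖ - 1|}) := ⟨_, rfl⟩
  have hs0 : 0 ≤ s := by rw [hs]; exact measureReal_nonneg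
  have ht0 : 0 ≤ t := by rw [ht]; exact measureReal_nonneg
  have hlam1 : L + c1 * s ^ 2 + c1 * t ≤ lam N (N + 1) Ω1 := by
    have hne : Ω1.Nonempty := by
      rw [nonempty_iff_ne_empty]
      intro h
      rw [h, measure_empty] at hΩ1v
      exact (measure_ball_pos volume (0 : E N) one_pos).ne hΩ1v
    refine le_csInf (Pool.Agent.H19.LK.pf_NE N (N + 1) Ω1 (by omega) hΩ1o hne) fun γ hγ => ?_
    rw [← hadm] at hγ
    rw [hs, ht]
    exact hcr Ω2 γ hΩ2o hΩ2v hΩ2b hΩ2c hγ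
  have hscl := (Pool.Agent.H3.LK.pf_SCL N (N + 1) r⁻¹ (inv_pos.mpr hr)).2.1 Ω
  rw [inv_inv, ← hΩ1] at hscl
  have hscb := (Pool.Agent.H3.LK.pf_SCL N (N + 1) r hr).2.2
  have hub := hUB N L hN hL
  obtain ⟨l1, hl1⟩ : ∃ l1, l1 = lam N (N + 1) (ball (0 : E N) 1) := ⟨_, rfl⟩
  rw [← hl1] at hscb hub
  -- volumes
  have hcomp : Ω2 = (fun x : E N => r • (o1 + x)) ⁻¹' Ω := by
    rw [hΩ2, hΩ1]; rfl
  have hballpre : ∀ q : ℝ, (fun x : E N => r • (o1 + x)) ⁻¹' ball (r • o1) (q * r) =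
      ball (0 : E N) q := by
    intro q
    ext x
    rw [mem_preimage, mem_ball, dist_eq_norm, mem_ball_zero_iff]
    have h1 : r • (o1 + x) - r • o1 = r • x := by rw [smul_add]; abel
    rw [h1, norm_smul, Real.norm_eq_abs, abs_of_pos hr, mul_comm r]
    exact mul_lt_mul_iff_left₀ hr
  have hV1 : s = (r ^ N)⁻¹ * volume.real (symmDiff Ω (ball (r • o1) r)) := by
    rw [← vol_pre_real N r hr o1, hs, hcomp]
    have h1 : (fun x : E N => r • (o1 + x)) ⁻¹' ball (r • o1) r = ball (0 : E N) 1 := by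
      have := hballpre 1
      rwa [one_mul] at this
    rw [← h1]
    rfl
  have hV2 : t = (r ^ N)⁻¹ * volume.real (symmDiff Ω (ball (r • o1) r) ∩
      {x | ε * r ≤ |‖x - r • o1‖ - r|}) := by
    rw [← vol_pre_real N r hr o1, ht, hcomp]
    have h1 : (fun x : E N => r • (o1 + x)) ⁻¹' ball (r • o1) r = ball (0 : E N) 1 := by
      have := hballpre 1
      rwa [one_mul] at this
    have h2 : (fun x : E N => r • (o1 + x)) ⁻¹' {x | ε * r ≤ |‖x - r • o1‖ - r|} =
        {x | ε ≤ |‖x‖ - 1|} := by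
      ext x
      change ε * r ≤ |‖r • (o1 + x) - r • o1‖ - r| ↔ ε ≤ |‖x‖ - 1|
      have h3 : r • (o1 + x) - r • o1 = r • x := by rw [smul_add]; abel
      have h4 : |‖r • x‖ - r| = |‖x‖ - 1| * r := by
        rw [norm_smul, Real.norm_eq_abs, abs_of_pos hr]
        have h5 : r * ‖x‖ - r = (‖x‖ - 1) * r := by ring
        rw [h5, abs_mul, abs_of_pos hr]
      rw [h3, h4]
      exact mul_le_mul_iff_left₀ hr
    rw [← h1, ← h2]
    rfl
  refine ⟨r • o1, ?_⟩
  have hX : volume.real (symmDiff Ω (ball (r • o1) r)) / volume.real (ball (0 : E N) r) =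
      s / vb := by
    rw [hV1, hV0, mul_div_mul_left _ _ hrN.ne']
  have hY : volume.real (symmDiff Ω (ball (r • o1) r) ∩ {x | ε * r ≤ |‖x - r • o1‖ - r|}) /
      volume.real (ball (0 : E N) r) = t / vb := by
    rw [hV2, hV0, mul_div_mul_left _ _ hrN.ne']
  rw [hX, hY, hscb]
  have hr2 : 0 < r ^ 2 := by positivity
  have hkey : l1 * (1 + cm / (|L| + 1) * (s / vb) ^ 2 + cm / (|L| + 1) * (t / vb)) ≤
      L + c1 * s ^ 2 + c1 * t := by
    have hA : 0 ≤ (s / vb) ^ 2 + t / vb := by positivity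
    have hcq : 0 < cm / (|L| + 1) := by positivity
    rcases le_or_gt 0 l1 with h0 | h0
    · have h1 : l1 ≤ |L| + 1 := by
        have := le_abs_self L
        linarith
      have h2 : l1 * (cm / (|L| + 1)) ≤ cm := by
        calc l1 * (cm / (|L| + 1)) ≤ (|L| + 1) * (cm / (|L| + 1)) :=
              mul_le_mul_of_nonneg_right h1 hcq.le
          _ = cm := by field_simp
      have h3 : cm * (s / vb) ^ 2 ≤ c1 * s ^ 2 := by
        have h4 : cm ≤ c1 * vb ^ 2 := by rw [hcm]; exact min_le_left _ _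
        calc cm * (s / vb) ^ 2 ≤ c1 * vb ^ 2 * (s / vb) ^ 2 :=
              mul_le_mul_of_nonneg_right h4 (by positivity)
          _ = c1 * s ^ 2 := by field_simp
      have h5 : cm * (t / vb) ≤ c1 * t := by
        have h4 : cm ≤ c1 * vb := by rw [hcm]; exact min_le_right _ _
        calc cm * (t / vb) ≤ c1 * vb * (t / vb) :=
              mul_le_mul_of_nonneg_right h4 (by positivity)
          _ = c1 * t := by field_simp
      calc l1 * (1 + cm / (|L| + 1) * (s / vb) ^ 2 + cm / (|L| + 1) * (t / vb))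
          = l1 + l1 * (cm / (|L| + 1)) * ((s / vb) ^ 2 + t / vb) := by ring
        _ ≤ L + cm * ((s / vb) ^ 2 + t / vb) :=
            add_le_add hub (mul_le_mul_of_nonneg_right h2 hA)
        _ = L + cm * (s / vb) ^ 2 + cm * (t / vb) := by ring
        _ ≤ L + c1 * s ^ 2 + c1 * t := by linarith
    · have h1 : l1 * (1 + cm / (|L| + 1) * (s / vb) ^ 2 + cm / (|L| + 1) * (t / vb)) ≤ l1 := by
        have h2 : 0 ≤ cm / (|L| + 1) * ((s / vb) ^ 2 + t / vb) := by positivity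
        nlinarith
      have h3 : 0 ≤ c1 * s ^ 2 := by positivity
      have h4 : 0 ≤ c1 * t := by positivity
      linarith
  have hfin : lam N (N + 1) Ω1 = lam N (N + 1) Ω * r ^ 2 := by
    rw [hscl]
    field_simp
  rw [hfin] at hlam1
  rw [div_mul_eq_mul_div, div_le_iff₀ hr2]
  exact hkey.trans hlam1

end Pool.Agent.H10.LQ1
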